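import Pool.Agent.H713R2.AR.PR

/-!
# The inverse of the exterior map and chains of Schwarz-Pick estimates (module E)
-/

set_option autoImplicit false

namespace Pool.Agent.T6.H49.LC

open Set Metric Filter Topology Complex
open Pool.Agent.H713R2 Pool.Agent.H712R2 N62a1eb23

theorem exists_phi {β : ℂ → ℂ} (hβ : IsBeta 2 β) :
    ∃ Φ : ℂ → ℂ, DifferentiableOn ℂ Φ (multibrotSet 2)ᶜ ∧
      ∀ c ∉ multibrotSet 2, Φ c ∈ ball (0 : ℂ) 1 ∧ Φ c ≠ 0 ∧ (Φ c)⁻¹ * β (Φ c) = c := by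
  classical
  have h0 : ∀ c : ℂ, ∃ x : ℂ, c ∉ multibrotSet 2 → x ∈ ball (0 : ℂ) 1 ∧ x ≠ 0 ∧
      x⁻¹ * β x = c := by
    intro c
    by_cases hc : c ∈ multibrotSet 2
    · exact ⟨0, fun h => absurd hc h⟩
    · obtain ⟨x, hx1, hx2, hx3⟩ := hβ.surj c hc
      exact ⟨x, fun _ => ⟨hx1, hx2, hx3⟩⟩
  choose Φ hΦ using h0
  refine ⟨Φ, ?_, fun c hc => hΦ c hc⟩
  intro c hc
  obtain ⟨h1, h2, h3⟩ := hΦ c hc
  set W : Set ℂ := ball (0 : ℂ) 1 \ {0} with hW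
  have hWo : IsOpen W := isOpen_ball.sdiff isClosed_singleton
  have hd : DifferentiableOn ℂ (fun x : ℂ => x⁻¹ * β x) W := by
    apply DifferentiableOn.mul
    · exact differentiableOn_inv.mono (fun x hx => hx.2)
    · exact hβ.diff.mono (fun x hx => hx.1)
  have hinj : InjOn (fun x : ℂ => x⁻¹ * β x) W := fun x hx y hy hxy =>
    hβ.inj x hx.1 y hy.1 hx.2 hy.2 hxy
  have hmem : Φ c ∈ W := ⟨h1, h2⟩
  have hne := Pool.Agent.Helper114.Montel.deriv_ne_zero_of_injOn hWo _ hd hinj hmem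
  have hst : HasStrictDerivAt (fun x : ℂ => x⁻¹ * β x)
      (deriv (fun x : ℂ => x⁻¹ * β x) (Φ c)) (Φ c) :=
    (hd.analyticAt (hWo.mem_nhds hmem)).hasStrictDerivAt
  have hleft : ∀ᶠ x in 𝓝 (Φ c), Φ ((fun x : ℂ => x⁻¹ * β x) x) = x := by
    filter_upwards [hWo.mem_nhds hmem] with x hx
    obtain ⟨g1, g2, g3⟩ := hΦ (x⁻¹ * β x) (hβ.notMem x hx.1 hx.2)
    exact hβ.inj _ g1 _ hx.1 g2 hx.2 g3
  have := (hst.to_local_left_inverse hne hleft).hasDerivAt.differentiableAt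
  simp only [h3] at this
  exact this.differentiableWithinAt

private theorem moebius {a b : ℂ} (ha : ‖a‖ < 1) (hb : ‖b‖ < 1) :
    1 - (starRingEnd ℂ) a * b ≠ 0 ∧ ‖(b - a) / (1 - (starRingEnd ℂ) a * b)‖ < 1 := by
  have h1 : ‖(starRingEnd ℂ) a * b‖ < 1 := by
    rw [norm_mul, RCLike.norm_conj]
    nlinarith [norm_nonneg a, norm_nonneg b]
  have h2 : 1 - (starRingEnd ℂ) a * b ≠ 0 := by
    intro h
    rw [sub_eq_zero] at h
    rw [← h, norm_one] at h1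
    exact lt_irrefl _ h1
  refine ⟨h2, ?_⟩
  rw [norm_div, div_lt_one (norm_pos_iff.2 h2)]
  have h3 : ‖b - a‖ ^ 2 < ‖1 - (starRingEnd ℂ) a * b‖ ^ 2 := by
    have ha2 : ‖a‖ ^ 2 < 1 := by nlinarith [norm_nonneg a]
    have hb2 : ‖b‖ ^ 2 < 1 := by nlinarith [norm_nonneg b]
    rw [← Complex.normSq_eq_norm_sq, Complex.normSq_apply] at ha2 hb2
    rw [← Complex.normSq_eq_norm_sq, ← Complex.normSq_eq_norm_sq, Complex.normSq_apply,
      Complex.normSq_apply]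
    simp only [Complex.sub_re, Complex.sub_im, Complex.mul_re, Complex.mul_im,
      Complex.one_re, Complex.one_im, Complex.conj_re, Complex.conj_im]
    nlinarith [mul_pos (sub_pos.2 ha2) (sub_pos.2 hb2)]
  exact lt_of_pow_lt_pow_left₀ 2 (norm_nonneg _) h3

private theorem step {F : ℂ → ℂ} {U : Set ℂ} (hF : DifferentiableOn ℂ F U)
    (hm : MapsTo F U (ball (0 : ℂ) 1)) {r : ℝ} (hr : 0 < r) {z w : ℂ} (hz : ball z r ⊆ U)
    (hw : ‖w - z‖ ≤ r / 2) :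
    1 - ‖F w‖ ≤ 3 * (1 - ‖F z‖) ∧ ‖F w - F z‖ ≤ 2 * (1 - ‖F z‖) := by
  have hzU : z ∈ ball z r := mem_ball_self hr
  have hwU : w ∈ ball z r := by
    rw [mem_ball, dist_eq_norm]; linarith
  have ha : ‖F z‖ < 1 := by simpa using hm (hz hzU)
  have hb : ∀ x ∈ ball z r, ‖F x‖ < 1 := fun x hx => by simpa using hm (hz hx)
  set a := F z with hadef
  set g : ℂ → ℂ := fun x => (F x - a) / (1 - (starRingEnd ℂ) a * F x) with hg
  have hgz : g z = 0 := by simp [hg, hadef]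
  have hgd : DifferentiableOn ℂ g (ball z r) := by
    apply DifferentiableOn.div
    · exact (hF.mono hz).sub_const a
    · exact ((hF.mono hz).const_mul _).const_sub 1
    · intro x hx
      exact (moebius ha (hb x hx)).1
  have hgm : MapsTo g (ball z r) (ball (g z) 1) := by
    intro x hx
    rw [hgz, mem_ball_zero_iff]
    exact (moebius ha (hb x hx)).2
  have h1 := Complex.dist_le_div_mul_dist_of_mapsTo_ball hgd (fun x hx => ball_subset_closedBall (hgm hx)) hwU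
  rw [hgz, dist_zero_right, dist_eq_norm] at h1
  have h2 : 1 / r * ‖w - z‖ ≤ 1 / 2 := by
    rw [one_div, inv_mul_le_iff₀ hr]
    linarith
  have h3 : ‖g w‖ ≤ 1 / 2 := h1.trans h2
  have h4 : F w - a = g w * (1 - (starRingEnd ℂ) a * F w) := by
    rw [hg]
    simp only
    rw [div_mul_cancel₀ _ (moebius ha (hb w hwU)).1]
  have h5 : ‖1 - (starRingEnd ℂ) a * F w‖ ≤ (1 - ‖a‖ ^ 2) + ‖F w - a‖ := by
    have e : 1 - (starRingEnd ℂ) a * F w =
        (((1 - ‖a‖ ^ 2 : ℝ)) : ℂ) - (starRingEnd ℂ) a * (F w - a) := by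
      have h6 : (starRingEnd ℂ) a * a = ((‖a‖ ^ 2 : ℝ) : ℂ) := by
        rw [mul_comm, Complex.mul_conj, Complex.normSq_eq_norm_sq]
      rw [mul_sub, h6]
      push_cast
      ring
    rw [e]
    refine (norm_sub_le _ _).trans ?_
    have h7 : ‖(((1 - ‖a‖ ^ 2 : ℝ)) : ℂ)‖ = 1 - ‖a‖ ^ 2 := by
      rw [Complex.norm_real, Real.norm_eq_abs, abs_of_nonneg]
      nlinarith [norm_nonneg a]
    rw [h7, norm_mul, RCLike.norm_conj]
    have : ‖a‖ * ‖F w - a‖ ≤ 1 * ‖F w - a‖ :=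
      mul_le_mul_of_nonneg_right ha.le (norm_nonneg _)
    linarith
  have h6 : ‖F w - a‖ ≤ 1 / 2 * ((1 - ‖a‖ ^ 2) + ‖F w - a‖) := by
    calc ‖F w - a‖ = ‖g w‖ * ‖1 - (starRingEnd ℂ) a * F w‖ := by rw [← norm_mul, ← h4]
      _ ≤ 1 / 2 * ((1 - ‖a‖ ^ 2) + ‖F w - a‖) := by
          apply mul_le_mul h3 h5 (norm_nonneg _) (by norm_num)
  have h7 : ‖F w - a‖ ≤ 2 * (1 - ‖a‖) := by nlinarith [norm_nonneg a]
  refine ⟨?_, h7⟩
  have h8 := norm_sub_norm_le a (F w)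
  rw [norm_sub_rev] at h8
  linarith

private theorem chain {F : ℂ → ℂ} {U : Set ℂ} (hF : DifferentiableOn ℂ F U)
    (hm : MapsTo F U (ball (0 : ℂ) 1)) {r : ℝ} (hr : 0 < r) (z : ℕ → ℂ) (j : ℕ)
    (hz : ∀ i ≤ j, ball (z i) r ⊆ U) (hs : ∀ i < j, ‖z (i + 1) - z i‖ ≤ r / 2) :
    1 - ‖F (z j)‖ ≤ 3 ^ j * (1 - ‖F (z 0)‖) ∧
      ‖F (z j) - F (z 0)‖ ≤ (3 ^ j - 1) * (1 - ‖F (z 0)‖) := by
  induction j with
  | zero => simp
  | succ j ih =>
    obtain ⟨h1, h2⟩ := ih (fun i hi => hz i (by omega)) (fun i hi => hs i (by omega))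
    obtain ⟨h3, h4⟩ := step hF hm hr (hz j (by omega)) (hs j (by omega))
    refine ⟨?_, ?_⟩
    · calc 1 - ‖F (z (j + 1))‖ ≤ 3 * (1 - ‖F (z j)‖) := h3
        _ ≤ 3 * (3 ^ j * (1 - ‖F (z 0)‖)) := by linarith
        _ = 3 ^ (j + 1) * (1 - ‖F (z 0)‖) := by ring
    · have h5 : F (z (j + 1)) - F (z 0) = (F (z (j + 1)) - F (z j)) + (F (z j) - F (z 0)) := by
        ring
      rw [h5]
      refine (norm_add_le _ _).trans ?_
      calc ‖F (z (j + 1)) - F (z j)‖ + ‖F (z j) - F (z 0)‖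
          ≤ 2 * (3 ^ j * (1 - ‖F (z 0)‖)) + (3 ^ j - 1) * (1 - ‖F (z 0)‖) := by linarith
        _ = (3 ^ (j + 1) - 1) * (1 - ‖F (z 0)‖) := by ring

theorem pick_chain {F : ℂ → ℂ} {U : Set ℂ} (hF : DifferentiableOn ℂ F U)
    (hm : MapsTo F U (ball (0 : ℂ) 1)) {r : ℝ} (hr : 0 < r) {u v : ℂ}
    (hseg : ∀ z ∈ segment ℝ u v, ball z r ⊆ U) {j : ℕ} (hj : ‖v - u‖ ≤ j * (r / 2)) :
    1 - ‖F v‖ ≤ 3 ^ j * (1 - ‖F u‖) ∧ ‖F v - F u‖ ≤ 3 ^ j * (1 - ‖F u‖) := by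
  have hu : ‖F u‖ < 1 := by
    simpa using hm (hseg u (left_mem_segment ℝ u v) (mem_ball_self hr))
  rcases Nat.eq_zero_or_pos j with rfl | hj0
  · have h1 : v = u := by
      rw [← sub_eq_zero, ← norm_le_zero_iff]
      simpa using hj
    subst h1
    simp only [pow_zero, one_mul, le_refl, sub_self, norm_zero, true_and]
    linarith
  · have hjr : (0 : ℝ) < j := by exact_mod_cast hj0
    set z : ℕ → ℂ := fun i => u + (((i : ℝ) / j : ℝ) : ℂ) * (v - u) with hz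
    have hz0 : z 0 = u := by simp [hz]
    have hzj : z j = v := by
      simp only [hz]
      rw [div_self hjr.ne']
      simp
    have h1 := chain hF hm hr z j (fun i hi => hseg _ (by
      rw [segment_eq_image']
      refine ⟨(i : ℝ) / j, ⟨by positivity, ?_⟩, ?_⟩
      · rw [div_le_one hjr]; exact_mod_cast hi
      · simp only [hz, Complex.real_smul])) (fun i _ => by
      have e : z (i + 1) - z i = ((1 / j : ℝ) : ℂ) * (v - u) := by
        simp only [hz]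
        push_cast
        ring
      rw [e, norm_mul, Complex.norm_real, Real.norm_eq_abs, abs_of_nonneg (by positivity)]
      rw [one_div, inv_mul_le_iff₀ hjr]
      exact hj)
    rw [hz0, hzj] at h1
    refine ⟨h1.1, h1.2.trans ?_⟩
    nlinarith

end Pool.Agent.T6.H49.LC
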